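import Pool.Agent.Helper15.BP.Law
import Pool.Agent.Helper88.PF.End

/-!
# The members of `F + F` have small doubling

`F = A.fib A` is the fibre family.  `step3`: in a group of exponent two the average of `dd` over the
members of `F + F` is at most `3 I`, `I = D(F + F) - 2 D(A + A) + D(A + A + A + A)`.
`lawAt_add`: members of `A + B` are convolutions.  `fib_D_bot`: the deficiency of the fibre family.
-/

set_option autoImplicit false

namespace Pool.Agent.Helper15.BP

open Finset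

variable {Ω Ω' α β γ : Type*} [Fintype Ω] [Fintype Ω']

/-- entropy with respect to an image law -/
theorem Ent_pr [Fintype α] (u : Ω → ℝ) (f : Ω → α) (g : α → β) :
    Ent (fun a => pr u f a) g = Ent u (fun o => g (f o)) := by
  classical
  unfold Ent
  have h1 : ∀ o, u o * (-Real.log (pr u (fun o => g (f o)) (g (f o)))) =
      u o * (fun a => -Real.log (pr (fun a => pr u f a) g (g a))) (f o) := by
    intro o
    rw [pr_comp_eq u f g]
  rw [Finset.sum_congr rfl fun o _ => h1 o,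
    sum_w_comp u f (fun a => -Real.log (pr (fun a => pr u f a) g (g a)))]
  symm
  refine Finset.sum_subset (Finset.subset_univ _) fun a _ ha => ?_
  rw [pr_zero_or f a (fun o h => ha (h ▸ Finset.mem_image_of_mem f (Finset.mem_univ o))), zero_mul]

variable {G : Type} [AddCommGroup G]

/-- `dd` of an image law -/
theorem dd_pr [Fintype G] (u : Ω → ℝ) (f : Ω → G) :
    dd (fun a => pr u f a) = Ent (prodW u u) (fun p => f p.1 + f p.2) - Ent u f := by
  unfold dd EL
  rw [Ent_conv, Ent_pr u f (fun x => x)]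
  congr 1
  have h1 : prodW (fun a => pr u f a) (fun a => pr u f a) =
      fun t : G × G => pr (prodW u u) (fun p => (f p.1, f p.2)) t := by
    funext t
    unfold prodW
    exact (pr_prod u u f f t.1 t.2).symm
  rw [h1, Ent_pr (prodW u u) (fun p => (f p.1, f p.2)) (fun t => t.1 + t.2)]

theorem law_eq_pr (w : Ω → ℝ) (f : Ω → α) (g : Ω → γ) (c : γ) :
    law w f g c = fun a => pr (Pool.Agent.Helper25.PF.condW w g c) f a := by
  funext a
  rw [Pool.Agent.Helper25.PF.pr_condW]
  rfl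

namespace Fam

/-- the doubling of a member, as a family and as a law -/
theorem dd_lawAt [Fintype G] (B : Fam G) {o : B.Ω} (ho : 0 < B.w o) :
    Pool.Agent.Helper88.PF.dd (Pool.Agent.Helper88.PF.mem B o) = dd (B.lawAt o) := by
  unfold lawAt
  rw [law_eq_pr, dd_pr]
  unfold Pool.Agent.Helper88.PF.dd
  rw [Pool.Agent.Helper88.PF.h_add, Pool.Agent.Helper88.PF.h_mem B ho]
  have e2 : Ent (Pool.Agent.Helper88.PF.mem B o).w (Pool.Agent.Helper88.PF.mem B o).J = 0 :=
    Ent_const (Pool.Agent.Helper88.PF.mem B o).hw ()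
  have e3 : Ent (prodW (Pool.Agent.Helper88.PF.mem B o).w (Pool.Agent.Helper88.PF.mem B o).w)
      (fun p => (((Pool.Agent.Helper88.PF.mem B o).J p.1, (Pool.Agent.Helper88.PF.mem B o).J p.2),
        (Pool.Agent.Helper88.PF.mem B o).Y p.1 + (Pool.Agent.Helper88.PF.mem B o).Y p.2)) =
      Ent (prodW (Pool.Agent.Helper25.PF.condW B.w B.J (B.J o))
        (Pool.Agent.Helper25.PF.condW B.w B.J (B.J o))) (fun p => B.Y p.1 + B.Y p.2) := by
    have : (Pool.Agent.Helper88.PF.mem B o).w = Pool.Agent.Helper25.PF.condW B.w B.J (B.J o) :=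
      Pool.Agent.Helper88.PF.memW_eq B ho
    rw [this]
    refine Ent_congr fun a b => ?_
    simp [Pool.Agent.Helper88.PF.mem]
  rw [e2, e3]
  ring

theorem D_bot_eq (A : Fam G) : A.D ⊥ = Real.log (Nat.card G) - Pool.Agent.Helper88.PF.h A :=
  A.D_bot

end Fam

/-- the deficiency of the fibre family -/
theorem fib_D_bot (A : Fam G) : (A.fib A).D ⊥ = 2 * A.D ⊥ - (A.add A).D ⊥ := by
  have h1 := Pool.Agent.Helper88.PF.h_fib_self A
  rw [Fam.D_bot_eq, Fam.D_bot_eq, Fam.D_bot_eq]
  unfold Pool.Agent.Helper88.PF.dd at h1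
  linarith

/-- members of the sum are convolutions -/
theorem lawAt_add [Fintype G] (A B : Fam G) (o : A.Ω × B.Ω) (h : 0 < A.w o.1)
    (h' : 0 < B.w o.2) : (A.add B).lawAt o = conv (A.lawAt o.1) (B.lawAt o.2) := by
  classical
  funext z
  unfold Fam.lawAt law conv
  have h1 : pr (A.add B).w (A.add B).J ((A.add B).J o) =
      pr A.w A.J (A.J o.1) * pr B.w B.J (B.J o.2) := pr_prod A.w B.w A.J B.J (A.J o.1) (B.J o.2)
  have h2 : pr (A.add B).w (fun p => ((A.add B).Y p, (A.add B).J p)) (z, (A.add B).J o) =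
      ∑ x, pr A.w (fun p => (A.Y p, A.J p)) (x, A.J o.1) *
        pr B.w (fun p => (B.Y p, B.J p)) (z - x, B.J o.2) := by
    have h3 : ∀ x, pr A.w (fun p => (A.Y p, A.J p)) (x, A.J o.1) *
        pr B.w (fun p => (B.Y p, B.J p)) (z - x, B.J o.2) =
        ∑ p : A.Ω × B.Ω, (if A.Y p.1 = x ∧ A.J p.1 = A.J o.1 ∧ B.Y p.2 = z - x ∧
          B.J p.2 = B.J o.2 then A.w p.1 * B.w p.2 else 0) := by
      intro x
      rw [← pr_prod A.w B.w (fun p => (A.Y p, A.J p)) (fun p => (B.Y p, B.J p)) (x, A.J o.1)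
        (z - x, B.J o.2)]
      unfold pr prodW
      refine Finset.sum_congr rfl fun p _ => ?_
      by_cases h4 : A.Y p.1 = x ∧ A.J p.1 = A.J o.1 ∧ B.Y p.2 = z - x ∧ B.J p.2 = B.J o.2
      · rw [if_pos h4, if_pos]
        exact Prod.ext (Prod.ext h4.1 h4.2.1) (Prod.ext h4.2.2.1 h4.2.2.2)
      · rw [if_neg h4, if_neg]
        intro h5
        simp only [Prod.mk.injEq] at h5
        exact h4 ⟨h5.1.1, h5.1.2, h5.2.1, h5.2.2⟩
    rw [Finset.sum_congr rfl fun x _ => h3 x, Finset.sum_comm]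
    have h4 : pr (A.add B).w (fun p => ((A.add B).Y p, (A.add B).J p)) (z, (A.add B).J o) =
        ∑ p : A.Ω × B.Ω, (if A.Y p.1 + B.Y p.2 = z ∧ A.J p.1 = A.J o.1 ∧ B.J p.2 = B.J o.2
          then A.w p.1 * B.w p.2 else 0) := by
      unfold pr
      refine Finset.sum_congr rfl fun p _ => ?_
      by_cases h5 : A.Y p.1 + B.Y p.2 = z ∧ A.J p.1 = A.J o.1 ∧ B.J p.2 = B.J o.2
      · rw [if_pos h5, if_pos]
        · rfl
        · simp only [Fam.add, Prod.mk.injEq]
          exact h5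
      · rw [if_neg h5, if_neg]
        intro h6
        simp only [Fam.add, Prod.mk.injEq] at h6
        exact h5 h6
    rw [h4]
    refine Finset.sum_congr rfl fun p _ => ?_
    rw [Finset.sum_eq_single (A.Y p.1)]
    · by_cases h5 : A.Y p.1 + B.Y p.2 = z ∧ A.J p.1 = A.J o.1 ∧ B.J p.2 = B.J o.2
      · rw [if_pos h5, if_pos]
        exact ⟨rfl, h5.2.1, by rw [← h5.1]; abel, h5.2.2⟩
      · rw [if_neg h5, if_neg]
        rintro ⟨-, h6, h7, h8⟩
        exact h5 ⟨by rw [h7]; abel, h6, h8⟩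
    · intro x _ hx
      rw [if_neg]
      rintro ⟨h6, -⟩
      exact hx h6.symm
    · intro h6
      exact absurd (Finset.mem_univ _) h6
  rw [h1, h2, Finset.sum_div]
  refine Finset.sum_congr rfl fun x _ => ?_
  rw [mul_div_mul_comm]

/-- **step 3**: the members of `F + F` have small doubling on average -/
theorem step3 {G : Type} [AddCommGroup G] [Fintype G] (h2 : ∀ x : G, x + x = 0) (A : Fam G) :
    let F := A.fib A
    let I := (F.add F).D ⊥ - 2 * (A.add A).D ⊥ + ((A.add A).add (A.add A)).D ⊥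
    0 ≤ I ∧ ∑ o : (F.add F).Ω, (F.add F).w o * dd ((F.add F).lawAt o) ≤ 3 * I := by
  intro F I
  have h1 : I = Pool.Agent.Helper88.PF.I4 A := by
    have h3 := Pool.Agent.Helper88.PF.h_fib_add_fib' h2 A
    have e1 : I = (F.add F).D ⊥ - 2 * (A.add A).D ⊥ + ((A.add A).add (A.add A)).D ⊥ := rfl
    have e2 : Pool.Agent.Helper88.PF.h (F.add F) =
      Pool.Agent.Helper88.PF.h ((A.fib A).add (A.fib A)) := rfl
    rw [e1, Fam.D_bot_eq, Fam.D_bot_eq, Fam.D_bot_eq, e2, h3]
    ring
  rw [h1]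
  refine ⟨Pool.Agent.Helper88.PF.I4_nonneg A, ?_⟩
  refine le_trans (le_of_eq ?_) (Pool.Agent.Helper88.PF.sum_dd_mem_le h2 A)
  refine Finset.sum_congr rfl fun o _ => ?_
  rcases ((F.add F).hw.nonneg o).eq_or_lt with h0 | h0
  · rw [← h0, zero_mul, zero_mul]
  · rw [← Fam.dd_lawAt (F.add F) h0]

end Pool.Agent.Helper15.BP
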